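import Mathlib
import Pool.Agent.N176.OW.Stm3

/-!
Project OW (helper176), part P1 (helper595): one step of the Poisson law.
-/

set_option autoImplicit false

namespace Pool.Agent.N595.OW

open Finset Filter Topology MeasureTheory
open Pool.Agent.N176.GP (cnt XX XX_nonneg sum_div sum_cells cnt_eq sum_one)
open Pool.Agent.N176.OW
open Pool.Agent.H305R2 (roughPart)

lemma hits_card (T : Finset ℕ) (b t n : ℕ) :
    ((hits T b t n).card : ℝ) = ∑ p ∈ T, XX p (n / b ^ (t - p)) := by
  unfold hits XX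
  rw [← Finset.sum_filter, Finset.sum_const, nsmul_eq_mul, mul_one]

lemma hits_level {T : Finset ℕ} {b s t : ℕ} (n : ℕ) (hst : s ≤ t) (hT : ∀ p ∈ T, p ≤ s) :
    hits T b t n = hits T b s (n / b ^ (t - s)) := by
  unfold hits
  apply filter_congr
  intro p hp
  have hp1 := hT p hp
  rw [Nat.div_div_eq_div_mul, ← pow_add]
  have : t - s + (s - p) = t - p := by omega
  rw [this]

lemma Av_level {b m A B s t : ℕ} (hb : 2 ≤ b) (hAB : A ≤ B) (hms : m ≤ s) (hst : s ≤ t)
    (g : ℕ → ℝ) : Av b m A B t (fun n => g (n / b ^ (t - s))) = Av b m A B s g := by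
  unfold Av
  have e : b ^ (t - m) = b ^ (s - m) * b ^ (t - s) := by rw [← pow_add]; congr 1; omega
  rw [e, ← mul_assoc, ← mul_assoc, sum_div _ _ _ (by positivity) (Nat.mul_le_mul_right _ hAB) g]
  have hb0 : (0 : ℝ) < b := by positivity
  have e2 : (b : ℝ) ^ t = (b : ℝ) ^ (t - s) * (b : ℝ) ^ s := by rw [← pow_add]; congr 1; omega
  rw [e2]
  push_cast
  field_simp

lemma Av_mono {b m A B t : ℕ} {f g : ℕ → ℝ} (h : ∀ n, f n ≤ g n) :
    Av b m A B t f ≤ Av b m A B t g := by
  unfold Av
  apply div_le_div_of_nonneg_right _ (by positivity)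
  exact Finset.sum_le_sum fun n _ => h n

lemma Av_add (b m A B t : ℕ) (f g : ℕ → ℝ) :
    Av b m A B t (fun n => f n + g n) = Av b m A B t f + Av b m A B t g := by
  unfold Av
  rw [Finset.sum_add_distrib, add_div]

lemma Av_sub (b m A B t : ℕ) (f g : ℕ → ℝ) :
    Av b m A B t (fun n => f n - g n) = Av b m A B t f - Av b m A B t g := by
  unfold Av
  rw [Finset.sum_sub_distrib, sub_div]

lemma Av_mul (b m A B t : ℕ) (c : ℝ) (f : ℕ → ℝ) :
    Av b m A B t (fun n => c * f n) = c * Av b m A B t f := by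
  unfold Av
  rw [← Finset.mul_sum, mul_div_assoc]

lemma Av_sum {ι : Type} (b m A B t : ℕ) (s : Finset ι) (f : ι → ℕ → ℝ) :
    Av b m A B t (fun n => ∑ x ∈ s, f x n) = ∑ x ∈ s, Av b m A B t (f x) := by
  unfold Av
  rw [Finset.sum_comm, Finset.sum_div]

lemma Av_abs {b m A B t : ℕ} {f g h : ℕ → ℝ} (hh : ∀ n, |f n - g n| ≤ h n) :
    |Av b m A B t f - Av b m A B t g| ≤ Av b m A B t h := by
  rw [abs_le, ← Av_sub]
  constructor
  · rw [neg_eq_neg_one_mul, ← Av_mul]
    apply Av_mono
    intro n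
    have := (abs_le.1 (hh n)).1
    linarith
  · exact Av_mono fun n => (abs_le.1 (hh n)).2

/-- the second order Bernoulli inequality -/
lemma bern {θ : ℝ} (h0 : 0 ≤ θ) (h1 : θ ≤ 1) (n : ℕ) :
    |θ ^ n - (1 - (1 - θ) * n)| ≤ (n : ℝ) * (n - 1) := by
  have hb : ∀ k : ℕ, 1 - θ ^ k ≤ k * (1 - θ) := by
    intro k
    induction k with
    | zero => simp
    | succ k ih =>
      have h2 : θ ^ k ≤ 1 := pow_le_one₀ h0 h1
      rw [pow_succ]
      push_cast
      nlinarith
  have key : 0 ≤ θ ^ n - (1 - (1 - θ) * n) ∧ 2 * (θ ^ n - (1 - (1 - θ) * n)) ≤ (n : ℝ) * (n - 1) := by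
    induction n with
    | zero => simp
    | succ n ih =>
      obtain ⟨i1, i2⟩ := ih
      have h2 : θ ^ n ≤ 1 := pow_le_one₀ h0 h1
      have h3 := hb n
      have hn : (0 : ℝ) ≤ n := Nat.cast_nonneg n
      rw [pow_succ]
      push_cast
      have e : θ ^ n * θ - (1 - (1 - θ) * (n + 1)) = (θ ^ n - (1 - (1 - θ) * n)) +
          (1 - θ) * (1 - θ ^ n) := by ring
      rw [e]
      have h4 : 0 ≤ (1 - θ) * (1 - θ ^ n) := mul_nonneg (by linarith) (by linarith)
      have h5 : (1 - θ) * (1 - θ ^ n) ≤ n := by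
        calc (1 - θ) * (1 - θ ^ n) ≤ 1 * (n * (1 - θ)) := by
              apply mul_le_mul (by linarith) h3 (by linarith) (by norm_num)
          _ ≤ n := by nlinarith
      constructor
      · linarith
      · nlinarith
  rw [abs_of_nonneg key.1]
  linarith [key.1, key.2]

/-- pairs of distinct hits -/
lemma pairs_eq (T : Finset ℕ) (x : ℕ → ℝ) (hx : ∀ p, x p * x p = x p) :
    (∑ p ∈ T, x p) * ((∑ p ∈ T, x p) - 1) = 2 * ∑ q ∈ T, ∑ p ∈ T.filter (fun p => p < q), x p * x q := by
  have h1 : (∑ p ∈ T, x p) * (∑ q ∈ T, x q) = ∑ q ∈ T, ∑ p ∈ T, x p * x q := by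
    rw [Finset.sum_mul_sum, Finset.sum_comm]
  have h2 : ∀ q ∈ T, ∑ p ∈ T, x p * x q = ∑ p ∈ T.filter (fun p => p < q), x p * x q + x q +
      ∑ p ∈ T.filter (fun p => q < p), x p * x q := by
    intro q hq
    have e1 : T = T.filter (fun p => p < q) ∪ ({q} ∪ T.filter (fun p => q < p)) := by
      ext p
      simp only [mem_union, mem_filter, mem_singleton]
      constructor
      · intro hp
        rcases lt_trichotomy p q with h | h | h
        · exact Or.inl ⟨hp, h⟩
        · exact Or.inr (Or.inl h)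
        · exact Or.inr (Or.inr ⟨hp, h⟩)
      · rintro (h | h | h)
        · exact h.1
        · rw [h]; exact hq
        · exact h.1
    conv_lhs => rw [e1]
    rw [Finset.sum_union, Finset.sum_union, Finset.sum_singleton, hx]
    · ring
    · rw [Finset.disjoint_left]
      intro p h1 h2
      rw [mem_singleton] at h1
      rw [mem_filter] at h2
      omega
    · rw [Finset.disjoint_left]
      intro p h1 h2
      rw [mem_union, mem_singleton, mem_filter] at h2
      rw [mem_filter] at h1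
      omega
  have h3 : ∑ q ∈ T, ∑ p ∈ T.filter (fun p => q < p), x p * x q =
      ∑ q ∈ T, ∑ p ∈ T.filter (fun p => p < q), x p * x q := by
    simp only [Finset.sum_filter]
    rw [Finset.sum_comm]
    refine Finset.sum_congr rfl fun q _ => Finset.sum_congr rfl fun p _ => ?_
    rw [mul_comm]
  have h4 : (∑ p ∈ T, x p) * (∑ q ∈ T, x q) = 2 * ∑ q ∈ T, ∑ p ∈ T.filter (fun p => p < q), x p * x q +
      ∑ q ∈ T, x q := by
    rw [h1, Finset.sum_congr rfl h2, Finset.sum_add_distrib, Finset.sum_add_distrib, h3]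
    ring
  rw [mul_sub, mul_one, h4]
  ring

lemma sum_biUnion_le' {ι : Type} [DecidableEq ι] (s : Finset ι) (t : ι → Finset ℕ) (f : ℕ → ℝ)
    (hf : ∀ p, 0 ≤ f p) : ∑ p ∈ s.biUnion t, f p ≤ ∑ i ∈ s, ∑ p ∈ t i, f p := by
  induction s using Finset.induction_on with
  | empty => simp
  | insert a s ha ih =>
    rw [biUnion_insert, sum_insert ha]
    have h1 := Finset.sum_union_inter (s₁ := t a) (s₂ := s.biUnion t) (f := f)
    have h2 : 0 ≤ ∑ i ∈ t a ∩ s.biUnion t, f i := Finset.sum_nonneg fun i _ => hf i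
    linarith

/-- the sum over a cell of the number of hits -/
lemma cell_sum {b : ℕ} (hb : 2 ≤ b) {T : Finset ℕ} {z t j : ℕ} (hT : ∀ p ∈ T, z ≤ p ∧ p ≤ t) :
    ∑ n ∈ Ico (j * b ^ (t - z)) ((j + 1) * b ^ (t - z)), ((hits T b t n).card : ℝ) =
      (b : ℝ) ^ (t - z) * mT b z T j := by
  have hb0 : (0 : ℝ) < b := by positivity
  simp only [hits_card]
  rw [Finset.sum_comm]
  unfold mT
  rw [Finset.mul_sum]
  refine Finset.sum_congr rfl fun p hp => ?_
  obtain ⟨h1, h2⟩ := hT p hp
  rw [sum_one hb h1 h2]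
  have e : (b : ℝ) ^ (t - z) = (b : ℝ) ^ (t - p) * (b : ℝ) ^ (p - z) := by
    rw [← pow_add]; congr 1; omega
  rw [e]
  field_simp

lemma final_ineq {CP k B K CU κ x1 x2 x3 E : ℝ} (hCP : 0 ≤ CP) (hk : 0 ≤ k) (hB : 0 ≤ B) (hK : 0 ≤ K)
    (hCU : 0 ≤ CU) (hκ : 0 ≤ κ) (h1 : 0 ≤ x1) (h2 : 0 ≤ x2) (h3 : 0 ≤ x3) (hE : 0 ≤ E) :
    2 * CP * (x1 + E) + (CP * (k * x1 + E) + (B * (x3 + K * x2) + (CU + κ) * x2) + κ * CP * k * x1) ≤
      (3 * CP + k * CP + B * (1 + K) + (CU + κ) + κ * CP * k) * (x1 + x2 + x3 + E) := by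
  have e5 : (3 * CP + k * CP + B * (1 + K) + (CU + κ) + κ * CP * k) * (x1 + x2 + x3 + E) -
      (2 * CP * (x1 + E) + (CP * (k * x1 + E) + (B * (x3 + K * x2) + (CU + κ) * x2) +
        κ * CP * k * x1)) =
      CP * x1 + 3 * (CP * x2) + 3 * (CP * x3) + k * CP * x2 + k * CP * x3 + k * CP * E +
      B * (1 + K) * x1 + B * x2 + B * K * x3 + B * (1 + K) * E + (CU + κ) * x1 + (CU + κ) * x3 +
      (CU + κ) * E + κ * CP * k * x2 + κ * CP * k * x3 + κ * CP * k * E := by
    ring
  have e6 : 0 ≤ CP * x1 + 3 * (CP * x2) + 3 * (CP * x3) + k * CP * x2 + k * CP * x3 + k * CP * E +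
      B * (1 + K) * x1 + B * x2 + B * K * x3 + B * (1 + K) * E + (CU + κ) * x1 + (CU + κ) * x3 +
      (CU + κ) * E + κ * CP * k * x2 + κ * CP * k * x3 + κ * CP * k * E := by
    positivity
  linarith

theorem p1 (h1 : S_PR) (h2 : S_GC) (h3 : S_UP) : S_P1 := by
  intro b hb m A B hA hAB
  obtain ⟨CP, hCP, P1, hPR⟩ := h1 b hb m A B hA hAB
  obtain ⟨k1, hk1, K, hK, hGC0⟩ := h2 b hb
  obtain ⟨P2, hGC⟩ := hGC0 (m + B)
  obtain ⟨CU, hCU, P3, hUP⟩ := h3 b hb
  have hb0 : (0 : ℝ) < b := by positivity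
  have hkap : 0 < kap b := by
    unfold kap
    have : 0 < Real.log b := Real.log_pos (by exact_mod_cast hb)
    positivity
  set C : ℝ := 3 * CP + k1 * CP + B * (1 + K) + (CU + kap b) + kap b * CP * k1 with hC
  have hC0 : 0 < C := by positivity
  refine ⟨C, hC0, max (max P1 P2) (max P3 (k1 + m + 1)), ?_⟩
  intro T hT δ hδ0 hδ1 hVδ θ hθ0 hθ1 i hi
  have hi1 : P1 ≤ i := ((le_max_left _ _).trans (le_max_left _ _)).trans hi
  have hi2 : P2 ≤ i := ((le_max_right _ _).trans (le_max_left _ _)).trans hi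
  have hi3 : P3 ≤ i := ((le_max_left _ _).trans (le_max_right _ _)).trans hi
  have hi4 : k1 + m + 1 ≤ i := ((le_max_right _ _).trans (le_max_right _ _)).trans hi
  set PP := max (max P1 P2) (max P3 (k1 + m + 1)) with hPP
  have hTP : ∀ p ∈ T, P1 ≤ p := by
    intro p hp
    have h4 := (hT p hp).2
    have h5 : PP < 2 ^ PP := Nat.lt_two_pow_self
    have h6 : P1 ≤ PP := (le_max_left _ _).trans (le_max_left _ _)
    omega
  set l0 := i + 1 - k1 with hl0
  set z := 2 ^ l0 with hz
  set s := 2 ^ i with hs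
  set t := 2 ^ (i + 1) with ht
  have hst : s ≤ t := Nat.pow_le_pow_right (by norm_num) (by omega)
  have hzs : z ≤ s := Nat.pow_le_pow_right (by norm_num) (by omega)
  have hzt : z ≤ t := hzs.trans hst
  have hmz : m ≤ z := by
    have h4 : l0 < 2 ^ l0 := Nat.lt_two_pow_self
    rw [hz]
    omega
  have hms : m ≤ s := hmz.trans hzs
  have hmt : m ≤ t := hms.trans hst
  have h2z : 2 * z ≤ s := by
    rw [hz, hs]
    calc 2 * 2 ^ l0 = 2 ^ (l0 + 1) := by rw [pow_succ]; ring
      _ ≤ 2 ^ i := Nat.pow_le_pow_right (by norm_num) (by omega)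
  set V := VT (TB T i) with hV
  have hV0 : 0 ≤ V := VT_nonneg _
  have hVd : V ≤ δ := hVδ i
  set E2 := ∑ q ∈ TB T i, ∑ p ∈ T.filter (fun p => p < q), Real.log p / p / (b : ℝ) ^ (q - p) with hE2
  have hlog : ∀ p : ℕ, 0 ≤ Real.log p / p := by
    intro p
    have := Real.log_natCast_nonneg p
    positivity
  have hclose : ∀ q p : ℕ, 0 ≤ Real.log p / p / (b : ℝ) ^ (q - p) := by
    intro q p
    have := hlog p
    positivity
  have hE20 : 0 ≤ E2 := Finset.sum_nonneg fun q _ => Finset.sum_nonneg fun p _ => hclose q p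
  -- the sets
  set TM := T.filter (fun p => 2 ^ l0 < p ∧ p ≤ 2 ^ i) with hTM
  have hVM : VT TM ≤ k1 * δ := by
    have h4 : TM ⊆ (Ico l0 i).biUnion (fun l => TB T l) := by
      intro p hp
      rw [hTM, mem_filter] at hp
      obtain ⟨hpT, hp1, hp2⟩ := hp
      rw [mem_biUnion]
      -- l with 2^l < p ≤ 2^(l+1)
      have hp0 : 1 < p := (hT p hpT).1.one_lt
      refine ⟨Nat.log 2 (p - 1), ?_, ?_⟩
      · rw [mem_Ico]
        constructor
        · apply Nat.le_log_of_pow_le (by norm_num)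
          omega
        · apply Nat.log_lt_of_lt_pow (by omega)
          omega
      · unfold TB
        rw [mem_filter]
        refine ⟨hpT, ?_, ?_⟩
        · have := Nat.pow_log_le_self 2 (x := p - 1) (by omega)
          omega
        · have := Nat.lt_pow_succ_log_self (b := 2) (by norm_num) (p - 1)
          rw [Nat.succ_eq_add_one] at this
          omega
    have h5 : VT TM ≤ ∑ l ∈ Ico l0 i, VT (TB T l) := by
      unfold VT
      calc ∑ p ∈ TM, Real.log p / p ≤ ∑ p ∈ (Ico l0 i).biUnion (fun l => TB T l), Real.log p / p :=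
            Finset.sum_le_sum_of_subset_of_nonneg h4 fun p _ _ => hlog p
        _ ≤ _ := sum_biUnion_le' _ _ _ (fun p => hlog p)
    refine h5.trans ((Finset.sum_le_sum fun l _ => hVδ l).trans ?_)
    rw [Finset.sum_const, Nat.card_Ico, nsmul_eq_mul]
    apply mul_le_mul_of_nonneg_right _ hδ0
    exact_mod_cast (by omega : i - l0 ≤ k1)
  have hVM0 : 0 ≤ VT TM := VT_nonneg _
  have hTLle : ∀ j : ℕ, ∀ p ∈ TL T j, p ≤ 2 ^ j := by
    intro j p hp
    unfold TL at hp
    exact (mem_filter.1 hp).2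
  have hTBle : ∀ q ∈ TB T i, q ∈ T ∧ s < q ∧ q ≤ t := by
    intro q hq
    unfold TB at hq
    exact mem_filter.1 hq
  have hTMle : ∀ q ∈ TM, q ∈ T ∧ z < q ∧ q ≤ s := by
    intro q hq
    exact mem_filter.1 hq
  -- numbers of hits
  set Y : ℕ → ℕ := fun n => (hits (TB T i) b t n).card with hY
  set X : ℕ → ℕ := fun n => (hits TM b t n).card with hX
  set Zi : ℕ → ℝ := fun n => θ ^ (hits (TL T i) b t n).card with hZi
  set W : ℕ → ℝ := fun n => θ ^ (hits (TL T l0) b t n).card with hW
  have hsplit1 : ∀ n, θ ^ (hits (TL T (i + 1)) b t n).card = Zi n * θ ^ Y n := by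
    intro n
    simp only [hZi, hY]
    rw [← pow_add]
    congr 1
    rw [← Finset.card_union_of_disjoint]
    · congr 1
      unfold hits TL TB
      ext p
      simp only [mem_union, mem_filter]
      constructor
      · rintro ⟨⟨h4, h5⟩, h6⟩
        rcases Nat.lt_or_ge (2 ^ i) p with h7 | h7
        · exact Or.inr ⟨⟨h4, h7, h5⟩, h6⟩
        · exact Or.inl ⟨⟨h4, h7⟩, h6⟩
      · rintro (⟨⟨h4, h5⟩, h6⟩ | ⟨⟨h4, h5, h7⟩, h6⟩)
        · exact ⟨⟨h4, h5.trans hst⟩, h6⟩
        · exact ⟨⟨h4, h7⟩, h6⟩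
    · rw [Finset.disjoint_left]
      intro p h4 h5
      unfold hits TL at h4
      unfold hits TB at h5
      simp only [mem_filter] at h4 h5
      omega
  have hsplit2 : ∀ n, Zi n = W n * θ ^ X n := by
    intro n
    simp only [hZi, hW, hX]
    rw [← pow_add]
    congr 1
    rw [← Finset.card_union_of_disjoint]
    · congr 1
      rw [hTM]
      unfold hits TL
      ext p
      simp only [mem_union, mem_filter]
      constructor
      · rintro ⟨⟨h4, h5⟩, h6⟩
        rcases Nat.lt_or_ge (2 ^ l0) p with h7 | h7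
        · exact Or.inr ⟨⟨h4, h7, h5⟩, h6⟩
        · exact Or.inl ⟨⟨h4, h7⟩, h6⟩
      · rintro (⟨⟨h4, h5⟩, h6⟩ | ⟨⟨h4, h5, h7⟩, h6⟩)
        · exact ⟨⟨h4, h5.trans hzs⟩, h6⟩
        · exact ⟨⟨h4, h7⟩, h6⟩
    · rw [Finset.disjoint_left]
      intro p h4 h5
      rw [hTM] at h5
      unfold hits TL at h4
      unfold hits at h5
      simp only [mem_filter] at h4 h5
      omega
  have hW0 : ∀ n, 0 ≤ W n := fun n => by simp only [hW]; positivity
  have hW1 : ∀ n, W n ≤ 1 := fun n => pow_le_one₀ hθ0 hθ1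
  have hZ0 : ∀ n, 0 ≤ Zi n := fun n => by simp only [hZi]; positivity
  have hZ1 : ∀ n, Zi n ≤ 1 := fun n => pow_le_one₀ hθ0 hθ1
  have hbern1 : ∀ k : ℕ, 1 - θ ^ k ≤ k := by
    intro k
    induction k with
    | zero => simp
    | succ k ih =>
      have h4 : θ ^ k ≤ 1 := pow_le_one₀ hθ0 hθ1
      have h5 : 0 ≤ θ ^ k := by positivity
      rw [pow_succ]
      push_cast
      nlinarith
  have hWZ : ∀ n, |W n - Zi n| ≤ X n := by
    intro n
    rw [hsplit2 n]
    have e : W n - W n * θ ^ X n = W n * (1 - θ ^ X n) := by ring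
    rw [e, abs_of_nonneg (mul_nonneg (hW0 n) (by
      have : θ ^ X n ≤ 1 := pow_le_one₀ hθ0 hθ1
      linarith))]
    have h4 := hbern1 (X n)
    have h5 : θ ^ X n ≤ 1 := pow_le_one₀ hθ0 hθ1
    calc W n * (1 - θ ^ X n) ≤ 1 * (X n : ℝ) :=
          mul_le_mul (hW1 n) h4 (by linarith) (by norm_num)
      _ = _ := one_mul _
  -- the averages
  set av := Av b m A B t with hav
  have hai : Av b m A B s (fun n => θ ^ (hits (TL T i) b s n).card) = av Zi := by
    rw [hav, ← Av_level hb hAB.le hms hst]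
    simp only [hZi]
    congr 1
    funext n
    rw [hits_level n hst (hTLle i)]
  have hai1 : av (fun n => θ ^ (hits (TL T (i + 1)) b t n).card) =
      av (fun n => Zi n * θ ^ Y n) := by
    congr 1
    funext n
    exact hsplit1 n
  rw [hai1, hai]
  -- pairs
  have hpair : ∀ q ∈ TB T i, ∀ p ∈ T, p < q →
      av (fun n => XX p (n / b ^ (t - p)) * XX q (n / b ^ (t - q))) ≤
        CP * (Real.log p / p * (Real.log q / q) + Real.log p / p / (b : ℝ) ^ (q - p)) := by
    intro q hq p hp hpq
    exact (hPR p (hTP p hp)).2 q hpq t (hTBle q hq).2.2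
  -- (1)
  have hR1 : av (fun n => (Y n : ℝ) * (Y n - 1)) ≤ 2 * CP * (δ * V + E2) := by
    have e1 : ∀ n, (Y n : ℝ) * (Y n - 1) = 2 * ∑ q ∈ TB T i, ∑ p ∈ (TB T i).filter (fun p => p < q),
        XX p (n / b ^ (t - p)) * XX q (n / b ^ (t - q)) := by
      intro n
      simp only [hY]
      rw [hits_card]
      exact pairs_eq (TB T i) (fun p => XX p (n / b ^ (t - p)))
        (fun p => Pool.Agent.N176.GP.XX_sq p _)
    have e2 : av (fun n => (Y n : ℝ) * (Y n - 1)) = 2 * ∑ q ∈ TB T i,
        ∑ p ∈ (TB T i).filter (fun p => p < q),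
          av (fun n => XX p (n / b ^ (t - p)) * XX q (n / b ^ (t - q))) := by
      simp only [e1, hav]
      rw [Av_mul, Av_sum]
      congr 1
      refine Finset.sum_congr rfl fun q _ => ?_
      rw [Av_sum]
    rw [e2]
    have e3 : ∑ q ∈ TB T i, ∑ p ∈ (TB T i).filter (fun p => p < q),
          av (fun n => XX p (n / b ^ (t - p)) * XX q (n / b ^ (t - q))) ≤
        ∑ q ∈ TB T i, (CP * (V * (Real.log q / q)) +
          CP * ∑ p ∈ T.filter (fun p => p < q), Real.log p / p / (b : ℝ) ^ (q - p)) := by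
      refine Finset.sum_le_sum fun q hq => ?_
      calc _ ≤ ∑ p ∈ (TB T i).filter (fun p => p < q), (CP * (Real.log p / p * (Real.log q / q)) +
            CP * (Real.log p / p / (b : ℝ) ^ (q - p))) := by
            refine Finset.sum_le_sum fun p hp => ?_
            rw [mem_filter] at hp
            rw [← mul_add]
            exact hpair q hq p (hTBle p hp.1).1 hp.2
        _ = ∑ p ∈ (TB T i).filter (fun p => p < q), CP * (Real.log p / p * (Real.log q / q)) +
            ∑ p ∈ (TB T i).filter (fun p => p < q), CP * (Real.log p / p / (b : ℝ) ^ (q - p)) :=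
            Finset.sum_add_distrib
        _ ≤ _ := by
            apply add_le_add
            · rw [← Finset.mul_sum, ← Finset.sum_mul]
              apply mul_le_mul_of_nonneg_left _ hCP.le
              apply mul_le_mul_of_nonneg_right _ (hlog q)
              rw [hV]
              unfold VT
              exact Finset.sum_le_sum_of_subset_of_nonneg (filter_subset _ _) fun p _ _ => hlog p
            · rw [← Finset.mul_sum]
              apply mul_le_mul_of_nonneg_left _ hCP.le
              apply Finset.sum_le_sum_of_subset_of_nonneg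
              · intro p hp
                rw [mem_filter] at hp ⊢
                exact ⟨(hTBle p hp.1).1, hp.2⟩
              · intro p _ _
                exact hclose q p
    have e4 : ∑ q ∈ TB T i, (CP * (V * (Real.log q / q)) +
          CP * ∑ p ∈ T.filter (fun p => p < q), Real.log p / p / (b : ℝ) ^ (q - p)) =
        CP * (V * V + E2) := by
      rw [Finset.sum_add_distrib, ← Finset.mul_sum, ← Finset.mul_sum, ← Finset.mul_sum, ← hE2]
      have : ∑ q ∈ TB T i, Real.log q / q = V := rfl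
      rw [this]
      ring
    rw [e4] at e3
    have e5 : V * V ≤ δ * V := mul_le_mul_of_nonneg_right hVd hV0
    have e6 : CP * (V * V + E2) ≤ CP * (δ * V + E2) :=
      mul_le_mul_of_nonneg_left (by linarith) hCP.le
    linarith
  -- (2)
  have hR2 : av (fun n => (X n : ℝ) * Y n) ≤ CP * (k1 * δ * V + E2) := by
    have e1 : ∀ n, (X n : ℝ) * Y n = ∑ q ∈ TB T i, ∑ p ∈ TM,
        XX p (n / b ^ (t - p)) * XX q (n / b ^ (t - q)) := by
      intro n
      simp only [hX, hY]
      rw [hits_card, hits_card, Finset.sum_mul_sum, Finset.sum_comm]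
    have e2 : av (fun n => (X n : ℝ) * Y n) = ∑ q ∈ TB T i, ∑ p ∈ TM,
          av (fun n => XX p (n / b ^ (t - p)) * XX q (n / b ^ (t - q))) := by
      simp only [e1, hav]
      rw [Av_sum]
      refine Finset.sum_congr rfl fun q _ => ?_
      rw [Av_sum]
    rw [e2]
    have e3 : ∑ q ∈ TB T i, ∑ p ∈ TM,
          av (fun n => XX p (n / b ^ (t - p)) * XX q (n / b ^ (t - q))) ≤
        ∑ q ∈ TB T i, (CP * (VT TM * (Real.log q / q)) +
          CP * ∑ p ∈ T.filter (fun p => p < q), Real.log p / p / (b : ℝ) ^ (q - p)) := by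
      refine Finset.sum_le_sum fun q hq => ?_
      have hlt : ∀ p ∈ TM, p < q := by
        intro p hp
        have h4 := (hTMle p hp).2.2
        have h5 := (hTBle q hq).2.1
        omega
      calc _ ≤ ∑ p ∈ TM, (CP * (Real.log p / p * (Real.log q / q)) +
            CP * (Real.log p / p / (b : ℝ) ^ (q - p))) := by
            refine Finset.sum_le_sum fun p hp => ?_
            rw [← mul_add]
            exact hpair q hq p (hTMle p hp).1 (hlt p hp)
        _ = ∑ p ∈ TM, CP * (Real.log p / p * (Real.log q / q)) +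
            ∑ p ∈ TM, CP * (Real.log p / p / (b : ℝ) ^ (q - p)) :=
            Finset.sum_add_distrib
        _ ≤ _ := by
            apply add_le_add
            · rw [← Finset.mul_sum, ← Finset.sum_mul]
              exact le_rfl
            · rw [← Finset.mul_sum]
              apply mul_le_mul_of_nonneg_left _ hCP.le
              apply Finset.sum_le_sum_of_subset_of_nonneg
              · intro p hp
                rw [mem_filter]
                exact ⟨(hTMle p hp).1, hlt p hp⟩
              · intro p _ _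
                exact hclose q p
    have e4 : ∑ q ∈ TB T i, (CP * (VT TM * (Real.log q / q)) +
          CP * ∑ p ∈ T.filter (fun p => p < q), Real.log p / p / (b : ℝ) ^ (q - p)) =
        CP * (VT TM * V + E2) := by
      rw [Finset.sum_add_distrib, ← Finset.mul_sum, ← Finset.mul_sum, ← Finset.mul_sum, ← hE2]
      have : ∑ q ∈ TB T i, Real.log q / q = V := rfl
      rw [this]
      ring
    rw [e4] at e3
    refine e3.trans (mul_le_mul_of_nonneg_left ?_ hCP.le)
    have e5 : VT TM * V ≤ k1 * δ * V := mul_le_mul_of_nonneg_right hVM hV0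
    linarith
  -- (4)
  have hR4 : av (fun n => (X n : ℝ)) ≤ CP * (k1 * δ) := by
    have e1 : av (fun n => (X n : ℝ)) = ∑ p ∈ TM, av (fun n => XX p (n / b ^ (t - p))) := by
      simp only [hX, hits_card, hav]
      rw [Av_sum]
    rw [e1]
    calc _ ≤ ∑ p ∈ TM, CP * (Real.log p / p) := by
          refine Finset.sum_le_sum fun p hp => ?_
          have h4 := hTMle p hp
          exact (hPR p (hTP p h4.1)).1 t (by omega)
      _ = CP * VT TM := by rw [← Finset.mul_sum]; rfl
      _ ≤ _ := mul_le_mul_of_nonneg_left hVM hCP.le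
  -- (3)
  have hi0 : (1 : ℝ) ≤ i := by exact_mod_cast (by omega : 1 ≤ i)
  have hR3 : |av (fun n => W n * Y n) - kap b * V * av W| ≤
      B * (1 / (i : ℝ) ^ 2 + K * V / i) + (CU + kap b) * (V / i) := by
    set g : ℕ → ℝ := fun j => θ ^ (hits (TL T l0) b z j).card with hg
    have hg0 : ∀ j, 0 ≤ g j := fun j => by simp only [hg]; positivity
    have hg1 : ∀ j, g j ≤ 1 := fun j => pow_le_one₀ hθ0 hθ1
    have hWg : ∀ n, W n = g (n / b ^ (t - z)) := by
      intro n
      simp only [hW, hg]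
      rw [hits_level n hzt (hTLle l0)]
    set I := Ico (A * b ^ (z - m)) (B * b ^ (z - m)) with hI
    have e1 : av (fun n => W n * Y n) = (∑ j ∈ I, g j * mT b z (TB T i) j) / (b : ℝ) ^ z := by
      rw [hav]
      unfold Av
      have e : b ^ (t - m) = b ^ (z - m) * b ^ (t - z) := by rw [← pow_add]; congr 1; omega
      rw [e, ← mul_assoc, ← mul_assoc, sum_cells _ _ _ (Nat.mul_le_mul_right _ hAB.le), ← hI]
      have e' : ∀ j ∈ I, ∑ r ∈ range (b ^ (t - z)), W (j * b ^ (t - z) + r) * (Y (j * b ^ (t - z) + r) : ℝ) =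
          (b : ℝ) ^ (t - z) * (g j * mT b z (TB T i) j) := by
        intro j _
        have e3 : ∑ r ∈ range (b ^ (t - z)), W (j * b ^ (t - z) + r) * (Y (j * b ^ (t - z) + r) : ℝ) =
            ∑ r ∈ range (b ^ (t - z)), g j * (Y (j * b ^ (t - z) + r) : ℝ) := by
          refine Finset.sum_congr rfl fun r hr => ?_
          rw [mem_range] at hr
          rw [hWg]
          have hBpos : 0 < b ^ (t - z) := by positivity
          rw [Nat.add_div_of_dvd_right (dvd_mul_left _ j), Nat.mul_div_cancel _ hBpos,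
            Nat.div_eq_of_lt hr, add_zero]
        rw [e3, ← Finset.mul_sum]
        have e4 := sum_cells (b ^ (t - z)) j (j + 1) (Nat.le_succ j) (fun n => (Y n : ℝ))
        rw [Nat.Ico_succ_singleton, Finset.sum_singleton] at e4
        rw [← e4]
        simp only [hY]
        rw [cell_sum hb (fun p hp => ⟨by
          have := (hTBle p hp).2.1
          omega, (hTBle p hp).2.2⟩)]
        ring
      rw [Finset.sum_congr rfl e', ← Finset.mul_sum]
      have e2 : (b : ℝ) ^ t = (b : ℝ) ^ (t - z) * (b : ℝ) ^ z := by rw [← pow_add]; congr 1; omega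
      rw [e2, mul_div_mul_left _ _ (by positivity)]
    have e2 : av W = (∑ j ∈ I, g j) / (b : ℝ) ^ z := by
      have e3 : av W = Av b m A B t (fun n => g (n / b ^ (t - z))) := by
        rw [hav]; congr 1; funext n; exact hWg n
      rw [e3, Av_level hb hAB.le hmz hzt]
      rfl
    rw [e1, e2]
    have e3 : (∑ j ∈ I, g j * mT b z (TB T i) j) / (b : ℝ) ^ z - kap b * V * ((∑ j ∈ I, g j) / (b : ℝ) ^ z) =
        (∑ j ∈ I, g j * (mT b z (TB T i) j - kap b * V)) / (b : ℝ) ^ z := by
      rw [← mul_div_assoc, ← sub_div, Finset.mul_sum, ← Finset.sum_sub_distrib]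
      congr 1
      refine Finset.sum_congr rfl fun j _ => ?_
      ring
    rw [e3, abs_div, abs_of_pos (show (0 : ℝ) < (b : ℝ) ^ z by positivity), div_le_iff₀ (by positivity)]
    set ε0 := 1 / (i : ℝ) ^ 2 + K * V / i with hε0
    have hε00 : 0 ≤ ε0 := by positivity
    have hmT : ∀ j ∈ I, 0 ≤ mT b z (TB T i) j ∧ mT b z (TB T i) j ≤ CU * V := by
      intro j hj
      constructor
      · unfold mT
        exact Finset.sum_nonneg fun p _ => by positivity
      · unfold mT
        rw [hV]
        unfold VT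
        rw [Finset.mul_sum]
        refine Finset.sum_le_sum fun q hq => ?_
        rw [div_le_iff₀ (by positivity)]
        have h4 := hTBle q hq
        apply hUP q _ z (by omega) j _
        · have h5 : i < 2 ^ i := Nat.lt_two_pow_self
          omega
        · rw [hI, mem_Ico] at hj
          have h6 : 0 < A * b ^ (z - m) := by positivity
          omega
    set bad := I.filter (fun j => ε0 < |mT b z (TB T i) j - kap b * V|) with hbad
    have hbadc : (bad.card : ℝ) ≤ (b : ℝ) ^ z / (i : ℝ) ^ 2 := by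
      have h4 := hGC i hi2 (TB T i) (fun p hp => ⟨(hT p (hTBle p hp).1).1, (hTBle p hp).2⟩)
      refine le_trans ?_ h4
      have h5 : bad ⊆ (Ico (b ^ (2 ^ (i + 1 - k1) - (m + B))) (b ^ (2 ^ (i + 1 - k1) + (m + B)))).filter
          (fun j => 1 / (i : ℝ) ^ 2 + K * VT (TB T i) / i <
            |mT b (2 ^ (i + 1 - k1)) (TB T i) j - kap b * VT (TB T i)|) := by
        intro j hj
        rw [hbad, mem_filter, hI, mem_Ico] at hj
        obtain ⟨⟨h6, h7⟩, h8⟩ := hj
        have hzz : 2 ^ (i + 1 - k1) = z := by rw [hz, hl0]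
        rw [mem_filter, mem_Ico]
        refine ⟨⟨?_, ?_⟩, h8⟩
        · calc b ^ (2 ^ (i + 1 - k1) - (m + B)) ≤ b ^ (z - m) :=
                Nat.pow_le_pow_right (by omega) (by omega)
            _ = 1 * b ^ (z - m) := (one_mul _).symm
            _ ≤ A * b ^ (z - m) := Nat.mul_le_mul_right _ hA
            _ ≤ j := h6
        · calc j < B * b ^ (z - m) := h7
            _ ≤ b ^ B * b ^ (z - m) := by
                apply Nat.mul_le_mul_right
                exact (Nat.lt_pow_self (by omega)).le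
            _ = b ^ (B + (z - m)) := by rw [pow_add]
            _ ≤ _ := Nat.pow_le_pow_right (by omega) (by omega)
      exact_mod_cast Finset.card_le_card h5
    have hIc : (I.card : ℝ) ≤ B * (b : ℝ) ^ z := by
      rw [hI, Nat.card_Ico]
      have h4 : B * b ^ (z - m) - A * b ^ (z - m) ≤ B * b ^ z := by
        calc _ ≤ B * b ^ (z - m) := Nat.sub_le _ _
          _ ≤ _ := Nat.mul_le_mul_left _ (Nat.pow_le_pow_right (by omega) (by omega))
      exact_mod_cast h4
    have hpt : ∀ j ∈ I, |g j * (mT b z (TB T i) j - kap b * V)| ≤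
        ε0 + if ε0 < |mT b z (TB T i) j - kap b * V| then (CU + kap b) * V else 0 := by
      intro j hj
      rw [abs_mul, abs_of_nonneg (hg0 j)]
      have h4 : g j * |mT b z (TB T i) j - kap b * V| ≤ |mT b z (TB T i) j - kap b * V| := by
        have := hg1 j
        have := abs_nonneg (mT b z (TB T i) j - kap b * V)
        nlinarith
      refine h4.trans ?_
      split_ifs with h5
      · have h6 := hmT j hj
        have h7 : |mT b z (TB T i) j - kap b * V| ≤ (CU + kap b) * V := by
          rw [abs_le]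
          constructor
          · have : 0 ≤ CU * V := by positivity
            linarith
          · have : 0 ≤ kap b * V := by positivity
            linarith
        linarith
      · rw [not_lt] at h5
        linarith
    calc |∑ j ∈ I, g j * (mT b z (TB T i) j - kap b * V)| ≤
          ∑ j ∈ I, |g j * (mT b z (TB T i) j - kap b * V)| := Finset.abs_sum_le_sum_abs _ _
      _ ≤ ∑ j ∈ I, (ε0 + if ε0 < |mT b z (TB T i) j - kap b * V| then (CU + kap b) * V else 0) :=
          Finset.sum_le_sum hpt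
      _ = I.card * ε0 + bad.card * ((CU + kap b) * V) := by
          rw [Finset.sum_add_distrib, Finset.sum_const, nsmul_eq_mul, ← Finset.sum_filter,
            Finset.sum_const, nsmul_eq_mul]
      _ ≤ (B * (b : ℝ) ^ z) * ε0 + ((b : ℝ) ^ z / (i : ℝ) ^ 2) * ((CU + kap b) * V) := by
          apply add_le_add
          · exact mul_le_mul_of_nonneg_right hIc hε00
          · exact mul_le_mul_of_nonneg_right hbadc (by positivity)
      _ ≤ (B * (b : ℝ) ^ z) * ε0 + ((b : ℝ) ^ z / (i : ℝ)) * ((CU + kap b) * V) := by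
          apply add_le_add le_rfl
          apply mul_le_mul_of_nonneg_right _ (by positivity)
          apply div_le_div_of_nonneg_left (by positivity) (by linarith)
          nlinarith
      _ = _ := by ring
  -- assembly
  have hF1 : |av (fun n => Zi n * θ ^ Y n) - av (fun n => Zi n * (1 - (1 - θ) * Y n))| ≤
      av (fun n => (Y n : ℝ) * (Y n - 1)) := by
    apply Av_abs
    intro n
    rw [← mul_sub, abs_mul, abs_of_nonneg (hZ0 n)]
    have h4 := bern hθ0 hθ1 (Y n)
    have h5 := abs_nonneg (θ ^ Y n - (1 - (1 - θ) * (Y n : ℝ)))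
    calc Zi n * |θ ^ Y n - (1 - (1 - θ) * (Y n : ℝ))| ≤ 1 * |θ ^ Y n - (1 - (1 - θ) * (Y n : ℝ))| :=
          mul_le_mul_of_nonneg_right (hZ1 n) h5
      _ ≤ _ := by rw [one_mul]; exact h4
  have hF2 : av (fun n => Zi n * (1 - (1 - θ) * Y n)) = av Zi - (1 - θ) * av (fun n => Zi n * Y n) := by
    rw [hav, ← Av_mul, ← Av_sub]
    congr 1
    funext n
    ring
  have hF3 : |av (fun n => W n * Y n) - av (fun n => Zi n * Y n)| ≤ av (fun n => (X n : ℝ) * Y n) := by
    apply Av_abs
    intro n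
    rw [← sub_mul, abs_mul, abs_of_nonneg (show (0 : ℝ) ≤ Y n by positivity)]
    exact mul_le_mul_of_nonneg_right (hWZ n) (by positivity)
  have hF4 : |av W - av Zi| ≤ av (fun n => (X n : ℝ)) := Av_abs hWZ
  have hF4' : |kap b * V * av W - kap b * V * av Zi| ≤ kap b * V * (CP * (k1 * δ)) := by
    rw [← mul_sub, abs_mul, abs_of_nonneg (show 0 ≤ kap b * V by positivity)]
    exact mul_le_mul_of_nonneg_left (hF4.trans hR4) (by positivity)
  set a1 := av (fun n => Zi n * θ ^ Y n) with ha1
  set a2 := av (fun n => Zi n * (1 - (1 - θ) * Y n)) with ha2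
  set a3 := av (fun n => Zi n * Y n) with ha3
  set a4 := av (fun n => W n * Y n) with ha4
  set a5 := av Zi with ha5
  set a6 := av W with ha6
  have hG1 : |a1 - a2| ≤ 2 * CP * (δ * V + E2) := hF1.trans hR1
  have hG3 : |a4 - a3| ≤ CP * (k1 * δ * V + E2) := hF3.trans hR2
  -- |a3 - kap V a5| bound
  set R := CP * (k1 * δ * V + E2) + (B * (1 / (i : ℝ) ^ 2 + K * V / i) + (CU + kap b) * (V / i)) +
      kap b * V * (CP * (k1 * δ)) with hR
  have hG5 : |a3 - kap b * V * a5| ≤ R := by
    have e : a3 - kap b * V * a5 = -(a4 - a3) + (a4 - kap b * V * a6) +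
        (kap b * V * a6 - kap b * V * a5) := by ring
    rw [e]
    refine (abs_add_three _ _ _).trans ?_
    rw [abs_neg]
    exact add_le_add (add_le_add hG3 hR3) hF4'
  have hR0 : 0 ≤ R := (abs_nonneg _).trans hG5
  have hG6 : a1 - (1 - (1 - θ) * (kap b * V)) * a5 =
      (a1 - a2) + -((1 - θ) * (a3 - kap b * V * a5)) := by
    rw [hF2]; ring
  rw [hG6]
  refine (abs_add_le _ _).trans ?_
  rw [abs_neg, abs_mul, abs_of_nonneg (show 0 ≤ 1 - θ by linarith)]
  have hG7 : (1 - θ) * |a3 - kap b * V * a5| ≤ R := by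
    calc (1 - θ) * |a3 - kap b * V * a5| ≤ 1 * R :=
          mul_le_mul (by linarith) hG5 (abs_nonneg _) (by norm_num)
      _ = R := one_mul _
  refine (add_le_add hG1 hG7).trans ?_
  rw [hR, hC]
  set x1 := δ * V with hx1
  set x2 := V / (i : ℝ) with hx2
  set x3 := 1 / (i : ℝ) ^ 2 with hx3
  have hx10 : 0 ≤ x1 := by positivity
  have hx20 : 0 ≤ x2 := by positivity
  have hx30 : 0 ≤ x3 := by positivity
  have e1 : K * V / (i : ℝ) = K * x2 := by rw [hx2]; ring
  have e2 : (k1 : ℝ) * δ * V = k1 * x1 := by rw [hx1]; ring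
  have e3 : kap b * V * (CP * (k1 * δ)) = kap b * CP * k1 * x1 := by rw [hx1]; ring
  rw [e1, e2, e3]
  exact final_ineq hCP.le (Nat.cast_nonneg k1) (Nat.cast_nonneg B) hK.le hCU.le hkap.le hx10 hx20 hx30
    hE20

end Pool.Agent.N595.OW
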